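import Mathlib
import Pool.Agent.TH278.DX.Defs2

/-! The weighted form on `H ⊕ ℂ` (job 4944). -/

set_option autoImplicit false

namespace Pool.Agent.TH16.J4944

open ContinuousLinearMap

section space

variable {H : Type} [NormedAddCommGroup H] [InnerProductSpace ℂ H]

/-- the Hilbert space `H ⊕ ℂ` -/
abbrev KK (H : Type) [NormedAddCommGroup H] [InnerProductSpace ℂ H] : Type := WithLp 2 (H × ℂ)

/-- the first component -/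
noncomputable def Ff : KK H →L[ℂ] H := WithLp.fstL 2 ℂ H ℂ

/-- the second component -/
noncomputable def Sf : KK H →L[ℂ] ℂ := WithLp.sndL 2 ℂ H ℂ

/-- the pair -/
noncomputable def pr : (H × ℂ) →L[ℂ] KK H := ((WithLp.prodContinuousLinearEquiv 2 ℂ H ℂ).symm : _)

lemma Ff_pr (x : H × ℂ) : Ff (pr x) = x.1 := rfl
lemma Sf_pr (x : H × ℂ) : Sf (pr x) = x.2 := rfl

/-- the operator `a ⊕ 1` -/
noncomputable def ex (a : H →L[ℂ] H) : KK H →L[ℂ] KK H := pr ∘L ((a ∘L Ff).prod Sf)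

lemma Ff_ex (a : H →L[ℂ] H) (v : KK H) : Ff (ex a v) = a (Ff v) := rfl
lemma Sf_ex (a : H →L[ℂ] H) (v : KK H) : Sf (ex a v) = Sf v := rfl

lemma KK_ext {v w : KK H} (h1 : Ff v = Ff w) (h2 : Sf v = Sf w) : v = w := by
  have h : WithLp.ofLp v = WithLp.ofLp w := Prod.ext h1 h2
  exact (WithLp.ofLp_injective 2) h

lemma inner_KK (v w : KK H) :
    inner ℂ v w = inner ℂ (Ff v) (Ff w) + inner ℂ (Sf v) (Sf w) := rfl

lemma norm_KK (v : KK H) : ‖v‖ ^ 2 = ‖Ff v‖ ^ 2 + ‖Sf v‖ ^ 2 :=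
  WithLp.prod_norm_sq_eq_of_L2 v

/-- `a ⊕ 1` as a homomorphism -/
noncomputable def exHom : (H →L[ℂ] H) →* (KK H →L[ℂ] KK H) where
  toFun := ex
  map_one' := by
    ext1 v
    exact KK_ext rfl rfl
  map_mul' a b := by
    ext1 v
    exact KK_ext rfl rfl

lemma star_ex [CompleteSpace H] (a : H →L[ℂ] H) : star (ex a) = ex (star a) := by
  rw [ContinuousLinearMap.star_eq_adjoint]
  symm
  rw [ContinuousLinearMap.eq_adjoint_iff]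
  intro u v
  rw [inner_KK, inner_KK, Ff_ex, Sf_ex, Ff_ex, Sf_ex, ContinuousLinearMap.star_eq_adjoint,
    ContinuousLinearMap.adjoint_inner_left]

lemma ex_unitary [CompleteSpace H] {a : H →L[ℂ] H} (ha : a ∈ unitary (H →L[ℂ] H)) :
    ex a ∈ unitary (KK H →L[ℂ] KK H) := by
  rw [Unitary.mem_iff] at ha ⊢
  rw [star_ex]
  have h1 : ∀ x y : H →L[ℂ] H, ex (x * y) = ex x * ex y := exHom.map_mul
  have h2 : ex (1 : H →L[ℂ] H) = 1 := exHom.map_one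
  rw [← h1, ← h1, ha.1, ha.2, h2]
  exact ⟨rfl, rfl⟩

end space

section tt

variable {K E : Type} [NormedAddCommGroup K] [InnerProductSpace ℂ K] [CompleteSpace K]
  [NormedAddCommGroup E] [InnerProductSpace ℂ E] [CompleteSpace E]

/-- `c T* T` -/
noncomputable def tt (c : ℝ) (T : K →L[ℂ] E) : K →L[ℂ] K := (c : ℂ) • (adjoint T ∘L T)

lemma tt_left (c : ℝ) (T : K →L[ℂ] E) (v w : K) :
    inner ℂ (tt c T v) w = (c : ℂ) * inner ℂ (T v) (T w) := by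
  have h : tt c T v = (c : ℂ) • (adjoint T (T v)) := rfl
  rw [h, inner_smul_left, ContinuousLinearMap.adjoint_inner_left, Complex.conj_ofReal]

lemma tt_right (c : ℝ) (T : K →L[ℂ] E) (v w : K) :
    inner ℂ v (tt c T w) = (c : ℂ) * inner ℂ (T v) (T w) := by
  have h : tt c T w = (c : ℂ) • (adjoint T (T w)) := rfl
  rw [h, inner_smul_right, ContinuousLinearMap.adjoint_inner_right]

lemma tt_re (c : ℝ) (T : K →L[ℂ] E) (v : K) :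
    (inner ℂ (tt c T v) v : ℂ).re = c * ‖T v‖ ^ 2 := by
  rw [tt_left, inner_self_eq_norm_sq_to_K]
  have : ((c : ℂ) * ((‖T v‖ : ℝ) : ℂ) ^ 2) = ((c * ‖T v‖ ^ 2 : ℝ) : ℂ) := by push_cast; ring
  exact (congrArg Complex.re this).trans (Complex.ofReal_re _)

end tt

lemma three_sq {E : Type} [NormedAddCommGroup E] (a b c : E) :
    ‖a + b - c‖ ^ 2 ≤ 3 * (‖a‖ ^ 2 + ‖b‖ ^ 2 + ‖c‖ ^ 2) := by
  have h1 : ‖a + b - c‖ ≤ ‖a‖ + ‖b‖ + ‖c‖ :=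
    (norm_sub_le _ _).trans (add_le_add_left (norm_add_le _ _) _)
  have h2 : ‖a + b - c‖ ^ 2 ≤ (‖a‖ + ‖b‖ + ‖c‖) ^ 2 := pow_le_pow_left₀ (norm_nonneg _) h1 2
  nlinarith [sq_nonneg (‖a‖ - ‖b‖), sq_nonneg (‖a‖ - ‖c‖), sq_nonneg (‖b‖ - ‖c‖)]

lemma two_sq_sub {E : Type} [NormedAddCommGroup E] (a b : E) :
    ‖a - b‖ ^ 2 ≤ 2 * (‖a‖ ^ 2 + ‖b‖ ^ 2) := by
  have h2 : ‖a - b‖ ^ 2 ≤ (‖a‖ + ‖b‖) ^ 2 := pow_le_pow_left₀ (norm_nonneg _) (norm_sub_le _ _) 2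
  nlinarith [sq_nonneg (‖a‖ - ‖b‖)]

lemma two_sq_add {E : Type} [NormedAddCommGroup E] (a b : E) :
    ‖a + b‖ ^ 2 ≤ 2 * (‖a‖ ^ 2 + ‖b‖ ^ 2) := by
  have h2 : ‖a + b‖ ^ 2 ≤ (‖a‖ + ‖b‖) ^ 2 := pow_le_pow_left₀ (norm_nonneg _) (norm_add_le _ _) 2
  nlinarith [sq_nonneg (‖a‖ - ‖b‖)]

lemma cs_sq {E : Type} [NormedAddCommGroup E] [InnerProductSpace ℂ E] (a b : E) :
    ‖(inner ℂ a b : ℂ)‖ ^ 2 ≤ ‖a‖ ^ 2 * ‖b‖ ^ 2 := by
  rw [← mul_pow]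
  exact pow_le_pow_left₀ (norm_nonneg _) (norm_inner_le_norm a b) 2

/-- comparison of the coefficients -/
lemma real_ineq {α β γ ε d m r C X Y q U N1 N1' N2' N4' x : ℝ} (hα : 0 ≤ α) (hβ : 0 ≤ β)
    (hγ : 0 ≤ γ) (hC : 0 ≤ C) (hq : 0 ≤ q) (hU : 0 ≤ U) (hN1 : 0 ≤ N1)
    (e1 : C * β = 4 * α * m) (e2 : C * γ = 3 * β * r) (e3 : C * ε = 4 * γ)
    (e4 : C * d = 2 * (4 * α * m ^ 2 + 6 * β * m + 2 * γ * x))
    (l1 : d ≤ 4 * α * m ^ 2 + 6 * β * m + 2 * γ * x) (l2 : ε ≤ γ)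
    (b1 : N1' ≤ 4 * m * X + 4 * m ^ 2 * q) (b2 : N2' ≤ 3 * (r * Y + m * q + m * q))
    (b4 : N4' ≤ 2 * U + 2 * x * q) :
    α * N1' + β * N2' + d * q + γ * N4' + ε * U ≤
      C * (α * N1 + β * X + d * q + γ * Y + ε * U) := by
  have c1 := mul_le_mul_of_nonneg_left b1 hα
  have c2 := mul_le_mul_of_nonneg_left b2 hβ
  have c4 := mul_le_mul_of_nonneg_left b4 hγ
  have p1 : 0 ≤ C * (α * N1) := by positivity
  have p2 : 0 ≤ (4 * α * m ^ 2 + 6 * β * m + 2 * γ * x - d) * q :=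
    mul_nonneg (by linarith) hq
  have p3 : 0 ≤ (2 * γ - ε) * U := mul_nonneg (by linarith) hU
  have e : C * (α * N1 + β * X + d * q + γ * Y + ε * U) =
      C * (α * N1) + (C * β) * X + (C * d) * q + (C * γ) * Y + (C * ε) * U := by ring
  rw [e, e1, e2, e3, e4]
  nlinarith [c1, c2, c4, p1, p2, p3]

theorem form {G H H3 : Type} [Group G] [NormedAddCommGroup H] [InnerProductSpace ℂ H]
    [CompleteSpace H] [NormedAddCommGroup H3] [InnerProductSpace ℂ H3] [CompleteSpace H3]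
    (σ : G →* (H →L[ℂ] H)ˣ)
    (hσ : ∀ g, ((σ g : (H →L[ℂ] H)ˣ) : H →L[ℂ] H) ∈ unitary (H →L[ℂ] H))
    (ξ η' : H) (R : H →L[ℂ] H3) (z : G → H3) (m b e c : ℝ) (hm : 0 < m) (he : 0 < e)
    (hc : 2 ≤ c) (hb : ‖ξ‖ * e ≤ b)
    (h1 : ∀ u : H, m * ‖R u‖ ^ 2 ≤ e ^ 2 * ‖u‖ ^ 2)
    (h2 : ∀ t, ‖R (((σ t : (H →L[ℂ] H)ˣ) : H →L[ℂ] H) ξ)‖ ^ 2 ≤ m)
    (h3 : ∀ s, ‖z s‖ ^ 2 ≤ 2 * m)
    (h4 : ∀ (s : G) (u : H), inner ℂ (z s) (R u) =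
        inner ℂ η' (((σ s : (H →L[ℂ] H)ˣ) : H →L[ℂ] H) u)) :
    ∃ (K : Type) (_ : NormedAddCommGroup K) (_ : InnerProductSpace ℂ K) (_ : CompleteSpace K)
      (τ : G →* (K →L[ℂ] K)ˣ) (ζ ω : K) (A : K →L[ℂ] K) (δ : ℝ),
      (∀ g, ((τ g : (K →L[ℂ] K)ˣ) : K →L[ℂ] K) ∈ unitary (K →L[ℂ] K)) ∧ 0 < δ ∧
      (∀ v w : K, inner ℂ (A v) w = inner ℂ v (A w)) ∧
      (∀ v : K, δ * ‖v‖ ^ 2 ≤ (inner ℂ (A v) v).re) ∧
      (∀ (g : G) (v : K), (inner ℂ (A (((τ g : (K →L[ℂ] K)ˣ) : K →L[ℂ] K) v))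
        (((τ g : (K →L[ℂ] K)ˣ) : K →L[ℂ] K) v)).re ≤ c ^ 2 * (inner ℂ (A v) v).re) ∧
      (inner ℂ (A ζ) ζ).re ≤ 1 ∧
      (∀ v : K, ‖(inner ℂ ω v : ℂ)‖ ^ 2 ≤ (20 * m ^ 2 + 96 * b ^ 2 / c ^ 6) * (inner ℂ (A v) v).re) ∧
      ∀ g, inner ℂ ω (((τ g : (K →L[ℂ] K)ˣ) : K →L[ℂ] K) ζ) =
        inner ℂ η' (((σ g : (H →L[ℂ] H)ˣ) : H →L[ℂ] H) ξ) := by
  -- constants
  have hc0 : 0 < c := by linarith
  obtain ⟨s, hs⟩ : ∃ s : ℝ, s = (c ^ 2)⁻¹ := ⟨_, rfl⟩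
  have hs0 : 0 < s := by rw [hs]; positivity
  have hcs : c ^ 2 * s = 1 := by rw [hs]; exact mul_inv_cancel₀ (by positivity)
  have hs4 : s ≤ 1 / 4 := by
    have h5 : (4 : ℝ) ≤ c ^ 2 := by nlinarith
    have h6 : 4 * s ≤ c ^ 2 * s := mul_le_mul_of_nonneg_right h5 hs0.le
    linarith
  have hb0 : 0 ≤ b := le_trans (by positivity) hb
  have hb2 : e ^ 2 * ‖ξ‖ ^ 2 ≤ b ^ 2 := by
    have := pow_le_pow_left₀ (by positivity) hb 2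
    nlinarith
  obtain ⟨D, hD⟩ : ∃ D : ℝ, D = 20 * m ^ 2 + 96 * b ^ 2 / c ^ 6 := ⟨_, rfl⟩
  have hDs : D = 20 * m ^ 2 + 96 * b ^ 2 * s ^ 3 := by
    rw [hD, hs]
    field_simp
  have hD0 : 0 < D := by rw [hD]; positivity
  obtain ⟨α, hα⟩ : ∃ α : ℝ, α = 1 / D := ⟨_, rfl⟩
  have hα0 : 0 < α := by rw [hα]; positivity
  have hDα : D * α = 1 := by rw [hα]; field_simp
  obtain ⟨β, hβ⟩ : ∃ β : ℝ, β = 4 * α * m * s := ⟨_, rfl⟩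
  have hβ0 : 0 < β := by rw [hβ]; positivity
  obtain ⟨r, hr⟩ : ∃ r : ℝ, r = e ^ 2 / m := ⟨_, rfl⟩
  have hr0 : 0 < r := by rw [hr]; positivity
  have hrm : r * m = e ^ 2 := by rw [hr]; field_simp
  obtain ⟨γ, hγ⟩ : ∃ γ : ℝ, γ = 3 * β * r * s := ⟨_, rfl⟩
  have hγ0 : 0 < γ := by rw [hγ]; positivity
  obtain ⟨ε, hε⟩ : ∃ ε : ℝ, ε = 4 * γ * s := ⟨_, rfl⟩
  have hε0 : 0 < ε := by rw [hε]; positivity
  obtain ⟨S, hS⟩ : ∃ S : ℝ, S = 4 * α * m ^ 2 + 6 * β * m + 2 * γ * ‖ξ‖ ^ 2 := ⟨_, rfl⟩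
  have hS0 : 0 < S := by rw [hS]; positivity
  obtain ⟨d, hd⟩ : ∃ d : ℝ, d = 2 * S * s := ⟨_, rfl⟩
  have hd0 : 0 < d := by rw [hd]; positivity
  -- the operators
  let T1 : KK H →L[ℂ] ℂ := (innerSL ℂ η') ∘L Ff
  let T4 : KK H →L[ℂ] H := Ff - Sf.smulRight ξ
  let T2 : KK H →L[ℂ] H3 := R ∘L T4
  let A : KK H →L[ℂ] KK H := tt α T1 + tt β T2 + tt d Sf + tt γ T4 + tt ε Ff
  have hT1 : ∀ v : KK H, T1 v = inner ℂ η' (Ff v) := fun v => rfl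
  have hT4 : ∀ v : KK H, T4 v = Ff v - Sf v • ξ := fun v => rfl
  have hT2 : ∀ v : KK H, T2 v = R (T4 v) := fun v => rfl
  have hAv : ∀ v : KK H, A v = tt α T1 v + tt β T2 v + tt d Sf v + tt γ T4 v + tt ε Ff v :=
    fun v => rfl
  have hQ : ∀ v : KK H, (inner ℂ (A v) v : ℂ).re = α * ‖T1 v‖ ^ 2 + β * ‖T2 v‖ ^ 2 +
      d * ‖Sf v‖ ^ 2 + γ * ‖T4 v‖ ^ 2 + ε * ‖Ff v‖ ^ 2 := by
    intro v
    rw [hAv, inner_add_left, inner_add_left, inner_add_left, inner_add_left, Complex.add_re,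
      Complex.add_re, Complex.add_re, Complex.add_re, tt_re, tt_re, tt_re, tt_re, tt_re]
  have hnorm : ∀ (g : G) (u : H), ‖((σ g : (H →L[ℂ] H)ˣ) : H →L[ℂ] H) u‖ = ‖u‖ := fun g u =>
    ContinuousLinearMap.norm_map_of_mem_unitary (hσ g) u
  have hR1 : ‖R ξ‖ ^ 2 ≤ m := by
    have := h2 1
    rw [map_one] at this
    exact this
  let τ : G →* (KK H →L[ℂ] KK H)ˣ := (Units.map exHom).comp σ
  have hτ : ∀ g, ((τ g : (KK H →L[ℂ] KK H)ˣ) : KK H →L[ℂ] KK H) =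
      ex ((σ g : (H →L[ℂ] H)ˣ) : H →L[ℂ] H) := fun g => rfl
  refine ⟨KK H, inferInstance, inferInstance, inferInstance, τ, pr (ξ, 1), pr (η', 0), A,
    min d ε, ?_, lt_min hd0 hε0, ?_, ?_, ?_, ?_, ?_, ?_⟩
  · intro g
    rw [hτ]
    exact ex_unitary (hσ g)
  · intro v w
    rw [hAv, hAv, inner_add_left, inner_add_left, inner_add_left, inner_add_left, inner_add_right,
      inner_add_right, inner_add_right, inner_add_right, tt_left, tt_left, tt_left, tt_left,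
      tt_left, tt_right, tt_right, tt_right, tt_right, tt_right]
  · intro v
    rw [hQ, norm_KK]
    have q1 : min d ε * ‖Ff v‖ ^ 2 ≤ ε * ‖Ff v‖ ^ 2 :=
      mul_le_mul_of_nonneg_right (min_le_right _ _) (by positivity)
    have q2 : min d ε * ‖Sf v‖ ^ 2 ≤ d * ‖Sf v‖ ^ 2 :=
      mul_le_mul_of_nonneg_right (min_le_left _ _) (by positivity)
    have q3 : 0 ≤ α * ‖T1 v‖ ^ 2 := by positivity
    have q4 : 0 ≤ β * ‖T2 v‖ ^ 2 := by positivity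
    have q5 : 0 ≤ γ * ‖T4 v‖ ^ 2 := by positivity
    linarith
  · intro g v
    rw [hτ, hQ, hQ, Sf_ex, Ff_ex, hnorm]
    obtain ⟨u, hu⟩ : ∃ u : H, u = Ff v := ⟨_, rfl⟩
    obtain ⟨p, hp⟩ : ∃ p : ℂ, p = Sf v := ⟨_, rfl⟩
    have t4 : T4 v = u - p • ξ := by rw [hT4, hu, hp]
    have t4' : T4 (ex ((σ g : (H →L[ℂ] H)ˣ) : H →L[ℂ] H) v) =
        ((σ g : (H →L[ℂ] H)ˣ) : H →L[ℂ] H) u - p • ξ := by rw [hT4, Ff_ex, Sf_ex, hu, hp]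
    have t1' : T1 (ex ((σ g : (H →L[ℂ] H)ˣ) : H →L[ℂ] H) v) =
        inner ℂ η' (((σ g : (H →L[ℂ] H)ˣ) : H →L[ℂ] H) u) := by rw [hT1, Ff_ex, hu]
    rw [← hu, ← hp]
    refine real_ineq (m := m) (r := r) (x := ‖ξ‖ ^ 2) hα0.le hβ0.le hγ0.le (by positivity)
      (by positivity) (by positivity) (by positivity) ?_ ?_ ?_ ?_ ?_ ?_ ?_ ?_ ?_
    · rw [hβ]; linear_combination (4 * α * m) * hcs
    · rw [hγ]; linear_combination (3 * β * r) * hcs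
    · rw [hε]; linear_combination (4 * γ) * hcs
    · rw [hd, ← hS]; linear_combination (2 * S) * hcs
    · rw [← hS, hd]; nlinarith
    · rw [hε]; nlinarith
    · rw [t1', ← h4]
      have k1 : R u = R (u - p • ξ) + p • R ξ := by rw [map_sub, map_smul, sub_add_cancel]
      have k2 : ‖R u‖ ^ 2 ≤ 2 * (‖T2 v‖ ^ 2 + m * ‖p‖ ^ 2) := by
        rw [hT2, t4, k1]
        refine (two_sq_add _ _).trans ?_
        have k3 : ‖p • R ξ‖ ^ 2 ≤ m * ‖p‖ ^ 2 := by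
          rw [norm_smul, mul_pow, mul_comm]
          exact mul_le_mul_of_nonneg_right hR1 (by positivity)
        linarith
      refine (cs_sq _ _).trans ?_
      calc ‖z g‖ ^ 2 * ‖R u‖ ^ 2 ≤ (2 * m) * (2 * (‖T2 v‖ ^ 2 + m * ‖p‖ ^ 2)) :=
            mul_le_mul (h3 g) k2 (by positivity) (by positivity)
        _ = 4 * m * ‖T2 v‖ ^ 2 + 4 * m ^ 2 * ‖p‖ ^ 2 := by ring
    · rw [hT2, t4', t4]
      have k1 : R (((σ g : (H →L[ℂ] H)ˣ) : H →L[ℂ] H) u - p • ξ) =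
          R (((σ g : (H →L[ℂ] H)ˣ) : H →L[ℂ] H) (u - p • ξ)) +
            p • R (((σ g : (H →L[ℂ] H)ˣ) : H →L[ℂ] H) ξ) - p • R ξ := by
        rw [map_sub, map_sub, map_sub, map_smul, map_smul, map_smul, sub_add_cancel]
      rw [k1]
      refine (three_sq _ _ _).trans ?_
      have k2 : ‖R (((σ g : (H →L[ℂ] H)ˣ) : H →L[ℂ] H) (u - p • ξ))‖ ^ 2 ≤
          r * ‖u - p • ξ‖ ^ 2 := by
        have k5 := h1 (((σ g : (H →L[ℂ] H)ˣ) : H →L[ℂ] H) (u - p • ξ))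
        rw [hnorm, ← hrm] at k5
        have k6 : m * ‖R (((σ g : (H →L[ℂ] H)ˣ) : H →L[ℂ] H) (u - p • ξ))‖ ^ 2 ≤
            m * (r * ‖u - p • ξ‖ ^ 2) := by linarith
        exact le_of_mul_le_mul_left k6 hm
      have k3 : ‖p • R (((σ g : (H →L[ℂ] H)ˣ) : H →L[ℂ] H) ξ)‖ ^ 2 ≤ m * ‖p‖ ^ 2 := by
        rw [norm_smul, mul_pow, mul_comm]
        exact mul_le_mul_of_nonneg_right (h2 g) (by positivity)
      have k4 : ‖p • R ξ‖ ^ 2 ≤ m * ‖p‖ ^ 2 := by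
        rw [norm_smul, mul_pow, mul_comm]
        exact mul_le_mul_of_nonneg_right hR1 (by positivity)
      linarith
    · rw [t4']
      refine (two_sq_sub _ _).trans (le_of_eq ?_)
      rw [hnorm, norm_smul]
      ring
  · rw [hQ, Sf_pr, Ff_pr]
    have t4 : T4 (pr (ξ, (1 : ℂ))) = 0 := by
      rw [hT4, Ff_pr, Sf_pr]
      simp
    have t2 : T2 (pr (ξ, (1 : ℂ))) = 0 := by rw [hT2, t4, map_zero]
    have t1 : ‖T1 (pr (ξ, (1 : ℂ)))‖ ^ 2 ≤ 2 * m * m := by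
      have k1 : T1 (pr (ξ, (1 : ℂ))) = inner ℂ (z 1) (R ξ) := by
        rw [hT1, Ff_pr, h4, map_one]
        rfl
      rw [k1]
      exact (cs_sq _ _).trans (mul_le_mul (h3 1) hR1 (by positivity) (by positivity))
    rw [t4, t2, norm_zero, norm_zero, norm_one]
    have k2 := mul_le_mul_of_nonneg_left t1 hα0.le
    have k3 : d * 1 ^ 2 + ε * ‖ξ‖ ^ 2 ≤ 5 * α * m ^ 2 + 96 * α * b ^ 2 * s ^ 3 := by
      have e1 : d * 1 ^ 2 + ε * ‖ξ‖ ^ 2 = (8 * s + 48 * s ^ 2) * (α * m ^ 2) +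
          96 * α * s ^ 3 * (e ^ 2 * ‖ξ‖ ^ 2) := by
        have e2 : γ = 12 * α * e ^ 2 * s ^ 2 := by
          rw [hγ, hβ, ← hrm]; ring
        rw [hd, hS, hε, e2, hβ]
        ring
      rw [e1]
      have e3 : (8 * s + 48 * s ^ 2) * (α * m ^ 2) ≤ 5 * (α * m ^ 2) := by
        apply mul_le_mul_of_nonneg_right _ (by positivity)
        nlinarith
      have e4 : 96 * α * s ^ 3 * (e ^ 2 * ‖ξ‖ ^ 2) ≤ 96 * α * s ^ 3 * b ^ 2 :=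
        mul_le_mul_of_nonneg_left hb2 (by positivity)
      linarith
    have k4 : 7 * α * m ^ 2 + 96 * α * b ^ 2 * s ^ 3 ≤ 1 := by
      rw [← hDα, hDs]
      have : 0 ≤ α * m ^ 2 := by positivity
      nlinarith
    have k5 : α * ‖T1 (pr (ξ, (1 : ℂ)))‖ ^ 2 ≤ 2 * α * m ^ 2 := by
      refine k2.trans (le_of_eq ?_)
      ring
    have k6 : (0 : ℝ) ^ 2 = 0 := by norm_num
    rw [k6, mul_zero, mul_zero]
    linarith
  · intro v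
    rw [← hD, hQ]
    have k1 : (inner ℂ (pr (η', (0 : ℂ))) v : ℂ) = T1 v := by
      rw [inner_KK, Ff_pr, Sf_pr, hT1]
      simp
    rw [k1]
    have q2 : 0 ≤ D * (d * ‖Sf v‖ ^ 2) := by positivity
    have q4 : 0 ≤ D * (β * ‖T2 v‖ ^ 2) := by positivity
    have q5 : 0 ≤ D * (γ * ‖T4 v‖ ^ 2) := by positivity
    have q6 : 0 ≤ D * (ε * ‖Ff v‖ ^ 2) := by positivity
    have q7 : ‖T1 v‖ ^ 2 = D * (α * ‖T1 v‖ ^ 2) := by rw [← mul_assoc, hDα, one_mul]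
    linarith
  · intro g
    rw [hτ, inner_KK, Ff_pr, Sf_pr, Ff_ex, Sf_ex, Ff_pr, Sf_pr]
    simp

end Pool.Agent.TH16.J4944
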