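import Pool.Agent.TH16.HS.Wrap

set_option autoImplicit false

namespace Pool.Agent.TH16.J3572

open Pool.Agent.TH614.HS

theorem CH3 : S_CH3 := Pool.Agent.TH16.HS.CH3

end Pool.Agent.TH16.J3572
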