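import Pool.Agent.TH16.HS.Wrap

set_option autoImplicit false

namespace Pool.Agent.TH16.J3573

open Pool.Agent.TH614.HS

theorem CH4 : S_CH4 := Pool.Agent.TH16.HS.CH4

end Pool.Agent.TH16.J3573
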